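import Mathlib
import Pool.Agent.Lib.helper20.CoverDens

open Filter Pool.Agent.Lib.helper20.CoverDens

namespace Pool.Agent.Results.MP_52e7c8_nt.NoDarboux

/-- `μ` (only its values on subsets of `H` matter) is an upper quasi-density on `H`. -/
structure UQD (H : Set ℤ) (μ : Set ℤ → ℝ) : Prop where
  f1 : μ H = 1
  f3 : ∀ X ⊆ H, ∀ Y ⊆ H, μ (X ∪ Y) ≤ μ X + μ Y
  f4 : ∀ X ⊆ H, ∀ h k : ℕ+,
    μ ((fun x => ((k : ℕ) : ℤ) * x + ((h : ℕ) : ℤ)) '' X) = 1 / ((k : ℕ) : ℝ) * μ X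
  le1 : ∀ X ⊆ H, μ X ≤ 1

/-- `X` lies in the domain of the quasi-density induced by `μ`. -/
def InDom (H : Set ℤ) (μ : Set ℤ → ℝ) (X : Set ℤ) : Prop := X ⊆ H ∧ μ X + μ (H \ X) = 1

def TT (G : Set ℤ) : Option Bool → Set ℤ
  | none => Set.univ
  | some true => G
  | some false => Gᶜ

noncomputable def ww : Option Bool → ℝ
  | none => 1
  | some _ => 1 / 2

lemma hw : ∀ t, 1 / 2 ≤ ww t := by rintro (_ | _) <;> norm_num [ww]

lemma cost_big {G : Set ℤ} (hG : Generic G) (e : Bool) (L : Finset (ℕ+ × ℤ × Option Bool))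
    (hL : Covers (TT G) L (Set.Ici 1 ∩ TT G (some e))) (hn : (1, 0, some e) ∉ L) :
    1 ≤ ∑ p ∈ L, cost ww p := by
  classical
  let pr : ℕ+ × ℤ × Option Bool → ℕ+ × ℤ := fun p => (p.1, p.2.1)
  let Full : Finset (ℕ+ × ℤ) := (L.image pr).filter fun q =>
    (q.1, q.2, none) ∈ L ∨ ((q.1, q.2, some true) ∈ L ∧ (q.1, q.2, some false) ∈ L)
  have h1 : 1 ≤ ∑ q ∈ Full, 1 / ((q.1 : ℕ) : ℝ) := by
    refine classes_cover Full (fun q => q.1) (fun q => q.2) fun r => ?_
    by_contra hr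
    push Not at hr
    obtain ⟨N, hN⟩ := eventually_atTop.1 hL
    let F := insert ((1 : ℕ+), (0 : ℤ)) (L.image pr)
    let P := F.filter fun q => if q = (1, 0) then e = true else (q.1, q.2, some true) ∉ L
    obtain ⟨n, hn1, hn2, hn3⟩ := hG F P (∏ p ∈ L, p.1) r (max N 1)
    have h10 := hn3 (1, 0) (Finset.mem_insert_self _ _) n (by simp)
    have hnA : n ∈ TT G (some e) := by
      cases e
      · show n ∉ G
        rw [h10]; simp [P]
      · show n ∈ G
        rw [h10]; simp [P, F]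
    obtain ⟨⟨k, h, t⟩, hp, x, hx, ex⟩ :=
      hN n (le_trans (le_max_left _ _) hn1) ⟨le_trans (le_max_right _ _) hn1, hnA⟩
    have hq : (k, h) ∈ L.image pr := Finset.mem_image_of_mem pr hp
    have hqF : (k, h) ∈ F := Finset.mem_insert_of_mem hq
    have hdiv : ((k : ℕ) : ℤ) ∣ r - h := by
      have d1 : k ∣ ∏ p ∈ L, p.1 := Finset.dvd_prod_of_mem (fun p => p.1) hp
      have d2 : ((k : ℕ) : ℤ) ∣ n - r :=
        (Int.natCast_dvd_natCast.2 (PNat.dvd_iff.1 d1)).trans hn2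
      have d3 : ((k : ℕ) : ℤ) ∣ n - h := ⟨x, by simp only at ex; linarith⟩
      have := dvd_sub d3 d2
      rwa [sub_sub_sub_cancel_left] at this
    have hnf : ¬ ((k, h, none) ∈ L ∨ ((k, h, some true) ∈ L ∧ (k, h, some false) ∈ L)) :=
      fun hf => hr (k, h) (Finset.mem_filter.2 ⟨hq, hf⟩) hdiv
    have hxG := hn3 (k, h) hqF x ex.symm
    simp only [P, Finset.mem_filter, hqF, true_and] at hxG
    rcases t with _ | _ | _
    · exact hnf (Or.inl hp)
    · have hx' : x ∉ G := hx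
      rw [hxG] at hx'
      by_cases hc : (k, h) = (1, 0)
      · rw [if_pos hc] at hx'
        obtain ⟨rfl, rfl⟩ := Prod.mk.inj hc
        cases e
        · exact hn hp
        · exact hx' rfl
      · rw [if_neg hc, not_not] at hx'
        exact hnf (Or.inr ⟨hx', hp⟩)
    · have hx' : x ∈ G := hx
      rw [hxG] at hx'
      by_cases hc : (k, h) = (1, 0)
      · rw [if_pos hc] at hx'
        obtain ⟨rfl, rfl⟩ := Prod.mk.inj hc
        subst hx'
        exact hn hp
      · rw [if_neg hc] at hx'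
        exact hx' hp
  rw [← Finset.sum_fiberwise_of_maps_to (g := pr) (fun p hp => Finset.mem_image_of_mem pr hp)]
  refine h1.trans (le_trans (Finset.sum_le_sum fun q hq => ?_)
    (Finset.sum_le_sum_of_subset_of_nonneg (Finset.filter_subset _ _)
      fun q _ _ => Finset.sum_nonneg fun p _ => cost_nonneg hw p))
  rcases (Finset.mem_filter.1 hq).2 with h | ⟨h, h'⟩
  · have := Finset.single_le_sum (f := cost ww) (s := L.filter fun p => pr p = q)
      (fun p _ => cost_nonneg hw p) (Finset.mem_filter.2 ⟨h, rfl⟩)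
    exact this
  · have := Finset.add_le_sum (f := cost ww) (s := L.filter fun p => pr p = q)
      (fun p _ => cost_nonneg hw p) (Finset.mem_filter.2 ⟨h, rfl⟩)
      (Finset.mem_filter.2 ⟨h', rfl⟩) (by simp)
    refine le_trans (le_of_eq ?_) this
    simp only [cost, ww]; ring

lemma cost_half (e : Bool) : cost ww (1, 0, some e) = 1 / 2 := by simp [cost, ww]

lemma both (L : Finset (ℕ+ × ℤ × Option Bool)) (h : (1, 0, some true) ∈ L)
    (h' : (1, 0, some false) ∈ L) : 1 ≤ ∑ p ∈ L, cost ww p := by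
  have := Finset.add_le_sum (f := cost ww) (fun p _ => cost_nonneg hw p) h h' (by simp)
  rw [cost_half, cost_half] at this
  linarith

lemma cov_mono {G : Set ℤ} {L : Finset (ℕ+ × ℤ × Option Bool)} {X Y : Set ℤ}
    (h : Covers (TT G) L Y) (hXY : X ⊆ Y) : Covers (TT G) L X :=
  h.mono fun _ hn hx => hn (hXY hx)

lemma main (H : Set ℤ) (hH : Set.Ici 1 ⊆ H) : ∃ μ : Set ℤ → ℝ, UQD H μ ∧ Monotone μ ∧
    ∃ X, InDom H μ X ∧ μ X = 1 / 2 ∧ ∀ Y ⊆ X, InDom H μ Y → μ Y = 0 ∨ μ Y = 1 / 2 := by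
  classical
  obtain ⟨G, hG⟩ := exists_generic
  have h0 : TT G none = Set.univ := rfl
  have f1 : mu (TT G) ww H = 1 := by
    refine le_antisymm (mu_le_one hw h0 rfl _) (le_mu h0 fun L hL => ?_)
    by_cases c1 : (1, 0, some true) ∈ L
    · by_cases c2 : (1, 0, some false) ∈ L
      · exact both L c1 c2
      · exact cost_big hG false L (cov_mono hL (Set.inter_subset_left.trans hH)) c2
    · exact cost_big hG true L (cov_mono hL (Set.inter_subset_left.trans hH)) c1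
  have half : ∀ (e : Bool) (Z : Set ℤ), Z ⊆ TT G (some e) → mu (TT G) ww Z ≤ 1 / 2 := by
    intro e Z hZ
    have := mu_le (T := TT G) hw (L := {(1, 0, some e)}) (Z := Z)
      (Eventually.of_forall fun n hn => ⟨_, Finset.mem_singleton_self _, n, hZ hn, by simp⟩)
    rwa [Finset.sum_singleton, cost_half] at this
  have a1 := half true (H ∩ G) Set.inter_subset_right
  have a2 := half false (H \ (H ∩ G)) fun x hx hxG => hx.2 ⟨hx.1, hxG⟩
  have a3 := mu_union hw h0 (w := ww) (H ∩ G) (H \ (H ∩ G))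
  rw [Set.union_diff_cancel Set.inter_subset_left, f1] at a3
  refine ⟨mu (TT G) ww, ⟨f1, fun X _ Y _ => mu_union hw h0 X Y,
    fun X _ h k => mu_aff hw h0 rfl k _ X, fun X _ => mu_le_one hw h0 rfl X⟩,
    fun X Y h => mu_mono hw h0 h, H ∩ G, ⟨Set.inter_subset_left, by linarith⟩, by linarith,
    fun Y hY hd => ?_⟩
  by_contra hc
  push Not at hc
  have b0 : 0 < mu (TT G) ww Y := lt_of_le_of_ne (mu_nonneg hw h0 Y) hc.1.symm
  have b1 : mu (TT G) ww Y < 1 / 2 :=
    lt_of_le_of_ne (half true Y (hY.trans Set.inter_subset_right)) hc.2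
  set a := mu (TT G) ww Y
  set ε := min (a / 2) ((1 / 2 - a) / 2) with hε
  have e1 : ε ≤ a / 2 := min_le_left _ _
  have e2 : ε ≤ (1 / 2 - a) / 2 := min_le_right _ _
  have e0 : 0 < ε := lt_min (by linarith) (by linarith)
  obtain ⟨L1, c1, s1⟩ := exists_cover_lt h0 (w := ww) (Z := Y) (c := a + ε) (by linarith)
  obtain ⟨L2, c2, s2⟩ := exists_cover_lt h0 (w := ww) (Z := H \ Y) (c := 1 - a + ε)
    (by linarith [hd.2])
  have m2 : (1, 0, some false) ∈ L2 := by
    by_contra hn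
    have := cost_big hG false L2 (cov_mono c2 fun x hx => ⟨hH hx.1, fun hy => hx.2 (hY hy).2⟩) hn
    linarith
  have m3 : (1, 0, some true) ∉ L2 := fun hn => by linarith [both L2 hn m2]
  have m1 : (1, 0, some true) ∉ L1 := fun hn => by
    have := Finset.single_le_sum (f := cost ww) (fun p _ => cost_nonneg hw p) hn
    rw [cost_half] at this
    linarith
  have c3 : Covers (TT G) (L1 ∪ L2.erase (1, 0, some false)) (Set.Ici 1 ∩ TT G (some true)) := by
    filter_upwards [c1, c2] with n h1 h2 hn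
    by_cases hy : n ∈ Y
    · obtain ⟨p, hp, h⟩ := h1 hy
      exact ⟨p, Finset.mem_union_left _ hp, h⟩
    · obtain ⟨p, hp, h⟩ := h2 ⟨hH hn.1, hy⟩
      refine ⟨p, Finset.mem_union_right _ (Finset.mem_erase.2 ⟨?_, hp⟩), h⟩
      rintro rfl
      obtain ⟨x, hx, ex⟩ := h
      have : x = n := by simpa using ex
      exact hx (this ▸ hn.2)
  have s3 := cost_big hG true _ c3 (by
    rw [Finset.mem_union, Finset.mem_erase]; tauto)
  have s4 := sum_union_le hw L1 (L2.erase (1, 0, some false))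
  have s5 := Finset.add_sum_erase L2 (cost ww) m2
  rw [cost_half] at s5
  linarith

theorem result (H : Set ℤ) (hH : H = Set.univ ∨ H = Set.Ici 0 ∨ H = Set.Ici 1) :
    (∃ μ : Set ℤ → ℝ, UQD H μ ∧ Monotone μ ∧
      ∃ X, InDom H μ X ∧ μ X = 1 / 2 ∧ ∀ Y ⊆ X, InDom H μ Y → μ Y = 0 ∨ μ Y = 1 / 2) ∧
    ¬ ∀ μ : Set ℤ → ℝ, UQD H μ → ∀ X, InDom H μ X → ∀ a ∈ Set.Icc 0 (μ X),
      ∃ Y, InDom H μ Y ∧ Y ⊆ X ∧ μ Y = a := by
  have hH' : Set.Ici 1 ⊆ H := by
    rcases hH with rfl | rfl | rfl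
    · exact Set.subset_univ _
    · exact Set.Ici_subset_Ici.2 zero_le_one
    · exact le_rfl
  obtain ⟨μ, h1, h2, X, h3, h4, h5⟩ := main H hH'
  refine ⟨⟨μ, h1, h2, X, h3, h4, h5⟩, fun h => ?_⟩
  obtain ⟨Y, k1, k2, k3⟩ := h μ h1 X h3 (1 / 4) (by rw [h4]; constructor <;> norm_num)
  rcases h5 Y k2 k1 with e | e <;> rw [k3] at e <;> norm_num at e

end Pool.Agent.Results.MP_52e7c8_nt.NoDarboux
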